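import Pool.Agent.MP_3e91a1_nt.FM.St

/-! The examples have independent units. -/

set_option autoImplicit false

open Finset Polynomial

noncomputable section

namespace Pool.Agent.MP_3e91a1_nt.FM

open TR GN

theorem cop_EXM {m : ℕ} (G : Fin m → ℚ[X]) (hd : ∀ i, 0 < (G i).natDegree)
    (hc : ∀ i j, i ≠ j → IsCoprime (G i) (G j)) (a b : Fin m → ℕ) (i : Fin m) (ha : a i ≠ 0)
    (hb : b i = 0) : ¬ ∏ j, G j ^ a j ∣ ∏ j, G j ^ b j := fun h => by
  have h1 : G i ∣ ∏ j, G j ^ b j :=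
    ((dvd_pow_self _ ha).trans (dvd_prod_of_mem (fun j => G j ^ a j) (mem_univ i))).trans h
  have h2 : IsCoprime (G i) (∏ j, G j ^ b j) := IsCoprime.prod_right fun j _ => by
    by_cases e : i = j
    · rw [← e, hb, pow_zero]
      exact isCoprime_one_right
    · exact (hc i j e).pow_right
  exact (hd i).ne' (natDegree_eq_zero_of_isUnit (h2.isUnit_of_dvd h1))

theorem con_EXM {m : ℕ} (G : Fin m → ℚ[X]) (hd : ∀ i, 0 < (G i).natDegree)
    (hc : ∀ i j, i ≠ j → IsCoprime (G i) (G j)) (e : Fin m → ℤ) (he : e ≠ 0) :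
    ¬ ∃ c, ∏ i, algebraMap ℚ[X] (RatFunc ℚ) (G i) ^ e i = RatFunc.C c := by
  rintro ⟨c, h⟩
  have h0 : ∀ i, G i ≠ 0 := fun i h => by simpa [h] using hd i
  have h1 : ∀ i, algebraMap ℚ[X] (RatFunc ℚ) (G i) ≠ 0 := fun i => RatFunc.algebraMap_ne_zero (h0 i)
  have h2 : ∏ i, G i ^ (e i).toNat = C c * ∏ i, G i ^ (-e i).toNat := by
    apply RatFunc.algebraMap_injective
    rw [map_mul, RatFunc.algebraMap_C, ← h, map_prod, map_prod, ← prod_mul_distrib]
    refine prod_congr rfl fun i _ => ?_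
    rw [map_pow, map_pow, ← zpow_natCast, ← zpow_natCast, ← zpow_add₀ (h1 i)]
    congr 1
    omega
  have h3 : c ≠ 0 := by
    rintro rfl
    rw [map_zero, zero_mul] at h2
    exact prod_ne_zero_iff.2 (fun i _ => pow_ne_zero _ (h0 i)) h2
  obtain ⟨i, hi⟩ := Function.ne_iff.1 he
  rw [Pi.zero_apply] at hi
  rcases lt_or_gt_of_ne hi with hi | hi
  · exact cop_EXM G hd hc (fun i => (-e i).toNat) (fun i => (e i).toNat) i (by omega) (by omega)
      (h2 ▸ dvd_mul_left _ _)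
  · refine cop_EXM G hd hc (fun i => (e i).toNat) (fun i => (-e i).toNat) i (by omega) (by omega)
      ⟨C c⁻¹, ?_⟩
    rw [h2, mul_right_comm, ← C_mul, mul_inv_cancel₀ h3, C_1, one_mul]

theorem EXM_pf : EXM_st := by
  classical
  intro m g hg hc
  have hM : (∏ i, (g i).map C : P2).Monic := monic_prod_of_monic _ _ fun i _ => (hg i).1.map _
  have hM' := hM.mul (monic_X_add_C (X : ℤ[X]))
  refine ⟨hM'.sub_of_left ?_, ?_⟩
  · rw [degree_one, ← natDegree_pos_iff_degree_pos, hM.natDegree_mul (monic_X_add_C _),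
      natDegree_X_add_C]
    omega
  have hu : ∀ i, AdjoinRoot.mk (exf g) ((g i).map C) * AdjoinRoot.mk (exf g)
      ((∏ j ∈ univ.erase i, (g j).map C) * (X + C X)) = 1 := fun i => by
    rw [← map_mul, ← mul_assoc, mul_prod_erase _ (fun j => (g j).map C) (mem_univ i),
      ← sub_eq_zero, ← map_one (AdjoinRoot.mk (exf g)), ← map_sub]
    exact AdjoinRoot.mk_self
  refine ⟨fun i => Units.mkOfMulEqOne _ _ (hu i), fun e he => ?_⟩
  set G : Fin m → ℚ[X] := fun i => (g i).map (Int.castRingHom ℚ) with hG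
  have hd : ∀ i, 0 < (G i).natDegree := fun i => by
    rw [hG, (hg i).1.natDegree_map]
    exact (hg i).2
  set a : Fin m → RatFunc ℚ := fun i => algebraMap ℚ[X] (RatFunc ℚ) (G i) with ha
  have ha0 : ∏ i, a i ≠ 0 := prod_ne_zero_iff.2 fun i _ =>
    RatFunc.algebraMap_ne_zero ((hg i).1.map _).ne_zero
  let φ : ℤ[X] →+* RatFunc ℚ := eval₂RingHom (Int.castRingHom _) ((∏ i, a i)⁻¹ - RatFunc.X)
  have e1 : ∀ i, ((g i).map C).eval₂ φ RatFunc.X = a i := fun i => by
    have : eval₂RingHom (φ.comp C) RatFunc.X =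
        (algebraMap ℚ[X] (RatFunc ℚ)).comp (mapRingHom (Int.castRingHom ℚ)) :=
      Polynomial.ringHom_ext' (RingHom.ext_int _ _) (by simp)
    rw [eval₂_map]
    exact RingHom.congr_fun this (g i)
  have e2 : (exf g).eval₂ φ RatFunc.X = 0 := by
    have : φ X = (∏ i, a i)⁻¹ - RatFunc.X := eval₂_X _ _
    rw [exf, eval₂_sub, eval₂_mul, eval₂_finsetProd, eval₂_add, eval₂_X, eval₂_C, eval₂_one, this,
      prod_congr rfl fun i _ => e1 i, add_sub_cancel, mul_inv_cancel₀ ha0, sub_self]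
  let ψ := AdjoinRoot.lift φ RatFunc.X e2
  have e3 : ψ ((∏ i, Units.mkOfMulEqOne _ _ (hu i) ^ e i : (AdjoinRoot (exf g))ˣ) :
      AdjoinRoot (exf g)) = ∏ i, a i ^ e i := by
    refine (map_prod (ψ.toMonoidHom.comp (Units.coeHom _)) _ _).trans
      (prod_congr rfl fun i _ => ?_)
    rw [map_zpow, ← e1 i]
    rfl
  rintro ⟨P, hP, h0⟩
  refine RatFunc.transcendental_of_ne_C _ (con_EXM G hd hc e he)
    ⟨P.map (Int.castRingHom ℚ), (Polynomial.map_ne_zero_iff Int.cast_injective).2 hP, ?_⟩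
  have h1 := congrArg ψ h0
  rw [map_zero, aeval_def, hom_eval₂, e3] at h1
  exact (eval₂_map _ _ _).trans ((congrArg (fun f => P.eval₂ f _) (RingHom.ext_int _ _)).trans h1)

end Pool.Agent.MP_3e91a1_nt.FM
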