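import Pool.Agent.MP_3e91a1_nt.FM.St

/-! The polynomials `g (X + T) - 1` are irreducible for large `T`. -/

set_option autoImplicit false

open Finset Filter Polynomial

namespace Pool.Agent.MP_3e91a1_nt.FM

open TR GN

theorem low_IRR {p : ℂ[X]} (hp : p.Monic) (hd : p.natDegree ≠ 0) {x : ℂ} (h : ‖p.eval x‖ ≤ 1) :
    ‖x‖ - 2 ≤ p.mahlerMeasure := by
  obtain ⟨z, hz, h1⟩ : ∃ z ∈ p.roots, ‖x - z‖ < 2 := by
    by_contra hc
    have h2 := Multiset.prod_map_le_prod_map₀ (s := p.roots) (fun _ => (2 : ℝ))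
      (fun z => ‖x - z‖) (fun _ _ => zero_le_two) fun z hz => not_lt.1 fun e => hc ⟨z, hz, e⟩
    rw [Multiset.map_const', Multiset.prod_replicate,
      ← (IsAlgClosed.splits p).natDegree_eq_card_roots] at h2
    rw [(IsAlgClosed.splits p).eval_eq_prod_roots, hp.leadingCoeff, one_mul] at h
    have h3 := (h2.trans (Multiset.prod_hom' p.roots (normHom (α := ℂ)) fun w => x - w).le).trans h
    exact absurd h3 (not_le.2 (one_lt_pow₀ one_lt_two hd))
  obtain ⟨q, rfl⟩ := dvd_iff_isRoot.2 (isRoot_of_mem_roots hz)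
  have h2 := leadingCoeff_le_mahlerMeasure q
  rw [((monic_X_sub_C z).of_mul_monic_left hp).leadingCoeff, norm_one] at h2
  rw [mahlerMeasure_mul, mahlerMeasure_X_sub_C]
  have h3 := le_mul_of_one_le_right ((norm_nonneg z).trans (le_max_right 1 ‖z‖)) h2
  linarith [le_max_right 1 ‖z‖, norm_sub_norm_le x z]

theorem up_IRR (a b : ℂ[X]) : ∃ A : ℝ, ∀ T : ℕ, 1 ≤ T →
    (a + C (T : ℂ) * b).mahlerMeasure ≤ A * T := by
  refine ⟨∑ i ∈ range (max a.natDegree b.natDegree + 1), (‖a.coeff i‖ + ‖b.coeff i‖),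
    fun T hT => (mahlerMeasure_le_sum_norm_coeff _).trans ?_⟩
  rw [sum_over_range' _ (fun _ => norm_zero) _ (Nat.lt_succ_of_le (natDegree_add_le_of_le le_rfl
    (natDegree_C_mul_le _ _))), sum_mul]
  refine sum_le_sum fun i _ => ?_
  rw [coeff_add, coeff_C_mul]
  refine (norm_add_le _ _).trans ?_
  have h : (1 : ℝ) ≤ T := by exact_mod_cast hT
  rw [norm_mul, Complex.norm_natCast]
  linarith [le_mul_of_one_le_right (norm_nonneg (a.coeff i)) h]

theorem IRR_pf : IRR_st := by
  intro g hg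
  obtain ⟨A, hA⟩ := up_IRR (g.map (Int.castRingHom ℂ) * X - 1) (g.map (Int.castRingHom ℂ))
  filter_upwards [eventually_ge_atTop 2, tendsto_natCast_atTop_atTop.eventually_ge_atTop (A + 4)]
    with T h2 h4
  have m1 : (g * (X + C (T : ℤ))).Monic := hg.mul (monic_X_add_C _)
  have m2 : (1 : ℤ[X]).natDegree < (g * (X + C (T : ℤ))).natDegree := by
    rw [hg.natDegree_mul (monic_X_add_C _), natDegree_X_add_C, natDegree_one]
    omega
  refine (m1.sub_of_left (degree_lt_degree m2)).irreducible_iff_natDegree.2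
    ⟨fun h => ?_, fun u v hu hv e => ?_⟩
  · have h3 := natDegree_sub_eq_left_of_natDegree_lt m2
    rw [h] at h3
    omega
  by_contra hc
  rw [not_or] at hc
  have key : ∀ w : ℤ[X], w.Monic → w.natDegree ≠ 0 → IsUnit (w.eval (-T : ℤ)) →
      (T : ℝ) - 2 ≤ (w.map (Int.castRingHom ℂ)).mahlerMeasure := by
    intro w h1 h3 h5
    have h6 := low_IRR (h1.map (Int.castRingHom ℂ)) (by rwa [h1.natDegree_map])
      (x := ((-T : ℤ) : ℂ)) (by
        rw [eval_intCast_map]
        rcases Int.isUnit_iff.1 h5 with h | h <;> simp [h])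
    simpa using h6
  have e1 := congrArg (eval (-T : ℤ)) e
  simp only [eval_mul, eval_sub, eval_add, eval_X, eval_C, eval_one, neg_add_cancel, mul_zero,
    zero_sub] at e1
  have e2 : IsUnit (u.eval (-T : ℤ) * v.eval (-T : ℤ)) := e1 ▸ isUnit_one.neg
  have k1 := key u hu hc.1 (isUnit_of_mul_isUnit_left e2)
  have k2 := key v hv hc.2 (isUnit_of_mul_isUnit_right e2)
  have t2 : (2 : ℝ) ≤ T := by exact_mod_cast h2
  have k3 := mul_le_mul k1 k2 (by linarith) (mahlerMeasure_nonneg _)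
  have e3 : g.map (Int.castRingHom ℂ) * X - 1 + C (T : ℂ) * g.map (Int.castRingHom ℂ) =
      u.map (Int.castRingHom ℂ) * v.map (Int.castRingHom ℂ) := by
    rw [← Polynomial.map_mul, e]
    simp only [Polynomial.map_sub, Polynomial.map_mul, Polynomial.map_add, map_X, map_natCast,
      Polynomial.map_one, Polynomial.map_natCast]
    ring
  have k4 := hA T (by omega)
  rw [e3, mahlerMeasure_mul] at k4
  nlinarith

end Pool.Agent.MP_3e91a1_nt.FM
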